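import Pool.Agent.H85.Flat.Geo3

/-!
# The Hopf sign in dimension six when the bound of the complex sectional curvatures is attained at a
plane with a complement which is curvature-invariant in the direction of the plane

At a point of a Riemannian six-manifold let all complex sectional curvatures be at most `-κ`, with
`κ ≥ 0`, and let the bound be attained at a complex plane `P`; put `T = R + κ`, the difference of `R`
and the tensor of constant curvature `-κ`. Suppose that `P` has a complementary complex subspace `C`
with `T^ℂ (z ∧ u, conj (v ∧ w)) = 0` for `z` in `P` and `u`, `v`, `w` in `C`. Then minus the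
Gauss-Bonnet-Chern integrand is at least its value for the constant curvature `-κ`.

Nothing is assumed on the block `T^ℂ (P ∧ P, conj (C ∧ C))`, so that the bivector of `P` need not be
an eigenvector of the curvature operator, and nothing on the restriction of `T` to the
six-dimensional space of bivectors of `C`, where the curvature operator need not have a sign.

The proof is in `Pool/Agent/H85/Flat/`. The mixed block (on `P ∧ C`) is nonnegative and by the Bianchi
identity and the second order condition at the minimum it is the sum of a symmetric part and a part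
which is controlled by the block `T^ℂ (P ∧ P, conj (C ∧ C))`; the integrand is a quadratic form in
the mixed block with values in the restriction of `T` to `C`, plus a term of third order; the mixed
block is separable (a sum of squares of decomposable bivectors) up to this part.
-/

set_option autoImplicit false

namespace Pool.Agent.Results.MP_5a30bb_gt.FlatPlane

open Pool.Agent.W666.GB Pool.Agent.TH598.GV Pool.Agent.H85.FL MeasureTheory

/-- **Hopf sign in dimension six**, when the upper bound of the complex sectional curvatures is
attained at a complex plane with a complement which is curvature-invariant in the direction of the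
plane: the pointwise inequality and its integrated forms. -/
theorem result :
    (∀ (V : Type) [NormedAddCommGroup V] [InnerProductSpace ℝ V]
      (e : OrthonormalBasis (Fin 3 × Bool) ℝ V) (R : V → V → V → V → ℝ), AlgCurv R →
      ∀ κ : ℝ, 0 ≤ κ → CxNonpos (shiftT R κ) →
      ∀ f : Fin 3 × Bool → V × V, FlatAt (shiftT R κ) f →
        roundGB 3 κ ≤ (-1) ^ 3 * gbc e R) ∧
    (∀ (M : Type) [MeasurableSpace M] (μ : Measure M) (K : CurvField 3 M) (κ : M → ℝ),
      (∀ p, 0 ≤ κ p ∧ CxNonpos (shiftT (K.R p) (κ p)) ∧
        ∃ f : Fin 3 × Bool → K.V p × K.V p, FlatAt (shiftT (K.R p) (κ p)) f) →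
      0 ≤ (-1) ^ 3 * ∫ p, K.gb p ∂μ ∧
      (Integrable K.gb μ → Integrable (fun p => roundGB 3 (κ p)) μ →
        ∫ p, roundGB 3 (κ p) ∂μ ≤ (-1) ^ 3 * ∫ p, K.gb p ∂μ) ∧
      (Integrable K.gb μ → μ {p | 0 < κ p} ≠ 0 → 0 < (-1) ^ 3 * ∫ p, K.gb p ∂μ)) :=
  ⟨fun _ _ _ e _ hR _ hκ hC _ hf => pointFlat e hR hκ hC hf,
    fun _ _ μ K κ h => fieldBd μ K κ fun p => ⟨(h p).1, by
      obtain ⟨h1, h2, f, hf⟩ := h p
      exact pointFlat (K.e p) (K.curv p) h1 h2 hf⟩⟩

end Pool.Agent.Results.MP_5a30bb_gt.FlatPlane
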