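import Pool.Agent.H85.Flat.Geo3

/-!
# The Hopf sign in dimension six when the bound of the complex sectional curvatures is attained at a
complex plane which is nearly curvature-orthogonal to its complement

At a point of a Riemannian six-manifold let all complex sectional curvatures be at most `-κ`, with
equality for the complex plane of the unitary pair `z`, `w`, and let
`|R^ℂ (z ∧ w, conj (u ∧ v))| ≤ r |u| |v|` for all complex vectors `u`, `v` orthogonal to `z`, `w`,
where `0 ≤ r` and `3 r ≤ 2 κ`. Then minus the Gauss-Bonnet-Chern integrand is at least its value for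
the constant curvature `-(κ - 3 r / 2)`. Nothing is assumed on the restriction of `R` to the bivectors
of the orthogonal complement.

For `r = 0` the bivector `z ∧ w` is an eigenvector of the curvature operator. The proof is in
`Pool/Agent/H85/Flat/`.
-/

set_option autoImplicit false

namespace Pool.Agent.Results.MP_5a30bb_gt.NearEigenPlane

open Pool.Agent.W666.GB Pool.Agent.TH598.GV Pool.Agent.H85.FL MeasureTheory

/-- **Hopf sign in dimension six**, when the upper bound of the complex sectional curvatures is
attained at a complex plane which is nearly curvature-orthogonal to its complement: the pointwise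
inequality and its integrated forms. -/
theorem result :
    (∀ (V : Type) [NormedAddCommGroup V] [InnerProductSpace ℝ V]
      (e : OrthonormalBasis (Fin 3 × Bool) ℝ V) (R : V → V → V → V → ℝ), AlgCurv R →
      ∀ κ : ℝ, CxNonpos (shiftT R κ) →
      ∀ (f : Fin 3 × Bool → V × V) (r : ℝ), NearAt R f κ r →
        roundGB 3 (κ - 3 / 2 * r) ≤ (-1) ^ 3 * gbc e R) ∧
    (∀ (M : Type) [MeasurableSpace M] (μ : Measure M) (K : CurvField 3 M) (κ r : M → ℝ),
      (∀ p, CxNonpos (shiftT (K.R p) (κ p)) ∧
        ∃ f : Fin 3 × Bool → K.V p × K.V p, NearAt (K.R p) f (κ p) (r p)) →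
      0 ≤ (-1) ^ 3 * ∫ p, K.gb p ∂μ ∧
      (Integrable K.gb μ → Integrable (fun p => roundGB 3 (κ p - 3 / 2 * r p)) μ →
        ∫ p, roundGB 3 (κ p - 3 / 2 * r p) ∂μ ≤ (-1) ^ 3 * ∫ p, K.gb p ∂μ) ∧
      (Integrable K.gb μ → μ {p | 0 < κ p - 3 / 2 * r p} ≠ 0 →
        0 < (-1) ^ 3 * ∫ p, K.gb p ∂μ)) :=
  ⟨fun _ _ _ e _ hR _ hC _ _ hf => pointNear e hR hC hf,
    fun _ _ μ K κ r h => fieldBd μ K (fun p => κ p - 3 / 2 * r p) fun p => by
      obtain ⟨h1, f, hf⟩ := h p
      have h2 : 0 ≤ κ p - 3 / 2 * r p := by
        have := hf.num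
        linarith
      exact ⟨h2, pointNear (K.e p) (K.curv p) h1 hf⟩⟩

end Pool.Agent.Results.MP_5a30bb_gt.NearEigenPlane
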