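import Pool.Agent.H85.Flat.Geo3

/-!
# The Hopf sign in dimension six when the bound of the complex sectional curvatures is attained at a
plane whose mixed bivectors are pinched

At a point of a Riemannian six-manifold let all complex sectional curvatures be at most `-κ`, and let
the bound be attained at a complex plane `P` with basis `z`, `w`. Let `0 ≤ δ ≤ κ` and `T = R + δ`, the
difference of `R` and the tensor of constant curvature `-δ`. Let `C` be a complement of `P` (the
orthogonal complement if `δ < κ`), and let the Hermitian form `-T^ℂ (ω, conj ω)` on the mixed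
bivectors `ω` in `P ∧ C` be between `μ₁` and `μ₂` times the sum of the squares of the coordinates, with
`μ₁ > 0`. Suppose that `|T^ℂ (z ∧ w, conj (u ∧ v))| ≤ r |u| |v|` for `u`, `v` in `C`, where
`2 r ≤ 5 μ₁ - 3 μ₂`; this last hypothesis is not needed if `μ₂ = μ₁`. Then minus the
Gauss-Bonnet-Chern integrand is at least its value for the constant curvature `-δ`.

Nothing is assumed on the restriction of `R` to the six-dimensional space of bivectors of `C`, where
the curvature operator need not have a sign, nor on the blocks `T^ℂ (P ∧ C, conj (C ∧ C))`; and the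
bivector of `P` need not be an eigenvector of the curvature operator.

The proof is in `Pool/Agent/H85/Flat/`.
-/

set_option autoImplicit false

namespace Pool.Agent.Results.MP_5a30bb_gt.PinnedPlane

open Pool.Agent.W666.GB Pool.Agent.TH598.GV Pool.Agent.H85.FL MeasureTheory

/-- **Hopf sign in dimension six**, when the upper bound of the complex sectional curvatures is
attained at a complex plane whose mixed bivectors are pinched: the pointwise inequality and its
integrated forms. -/
theorem result :
    (∀ (V : Type) [NormedAddCommGroup V] [InnerProductSpace ℝ V]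
      (e : OrthonormalBasis (Fin 3 × Bool) ℝ V) (R : V → V → V → V → ℝ), AlgCurv R →
      ∀ κ : ℝ, CxNonpos (shiftT R κ) →
      ∀ (f : Fin 3 × Bool → V × V) (δ μ₁ μ₂ : ℝ), PinAt R f κ δ μ₁ μ₂ →
        roundGB 3 δ ≤ (-1) ^ 3 * gbc e R) ∧
    (∀ (M : Type) [MeasurableSpace M] (μ : Measure M) (K : CurvField 3 M) (κ δ : M → ℝ),
      (∀ p, CxNonpos (shiftT (K.R p) (κ p)) ∧
        ∃ (f : Fin 3 × Bool → K.V p × K.V p) (μ₁ μ₂ : ℝ),
          PinAt (K.R p) f (κ p) (δ p) μ₁ μ₂) →
      0 ≤ (-1) ^ 3 * ∫ p, K.gb p ∂μ ∧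
      (Integrable K.gb μ → Integrable (fun p => roundGB 3 (δ p)) μ →
        ∫ p, roundGB 3 (δ p) ∂μ ≤ (-1) ^ 3 * ∫ p, K.gb p ∂μ) ∧
      (Integrable K.gb μ → μ {p | 0 < δ p} ≠ 0 → 0 < (-1) ^ 3 * ∫ p, K.gb p ∂μ)) :=
  ⟨fun _ _ _ e _ hR _ hC _ _ _ _ hf => pointPin e hR hC hf,
    fun _ _ μ K κ δ h => fieldBd μ K δ fun p => by
      obtain ⟨h1, f, μ₁, μ₂, hf⟩ := h p
      exact ⟨hf.nonneg, pointPin (K.e p) (K.curv p) h1 hf⟩⟩

end Pool.Agent.Results.MP_5a30bb_gt.PinnedPlane
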